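import Mathlib

set_option autoImplicit false

open Set

/-! # Width, chains and chainable spaces -/

namespace Pool.Agent.Y525.Width

/-- The sets `C 0, …, C (n - 1)` form a chain: two of them meet if and only if their indices differ
by at most one. -/
def IsChain {X : Type*} {n : ℕ} (C : Fin n → Set X) : Prop :=
  ∀ i j : Fin n, (C i ∩ C j).Nonempty ↔ |(i : ℤ) - (j : ℤ)| ≤ 1

/-- The property in the definition of the width: for every `ε > 0` there is a finite open cover
`𝒞` of `X` with mesh less than `ε` such that for every chain `C` of members of `𝒞` some (nonempty)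
member `A` of `𝒞` has distance at least `a` from the union of the chain. -/
def HasWidth (X : Type*) [MetricSpace X] (a : ℝ) : Prop :=
  ∀ ε > 0, ∃ 𝒞 : Set (Set X), 𝒞.Finite ∧ (∀ A ∈ 𝒞, IsOpen A ∧ Metric.diam A < ε) ∧
    ⋃₀ 𝒞 = univ ∧ ∀ (n : ℕ) (C : Fin (n + 1) → Set X), IsChain C → (∀ i, C i ∈ 𝒞) →
      ∃ A ∈ 𝒞, A.Nonempty ∧ ∀ p ∈ A, ∀ i, ∀ q ∈ C i, a ≤ dist p q

/-- The width `w(X)`: the supremum of all real `a` with this property. -/
noncomputable def width (X : Type*) [MetricSpace X] : ℝ := sSup {a : ℝ | HasWidth X a}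

/-- `Y` is chainable: for every `ε > 0` there is an `ε`-map of `Y` onto the arc `[0, 1]`. -/
def Chainable (Y : Type*) [MetricSpace Y] : Prop :=
  ∀ ε > 0, ∃ g : Y → Icc (0 : ℝ) 1, Continuous g ∧ Function.Surjective g ∧
    ∀ t, Metric.diam (g ⁻¹' {t}) ≤ ε

end Pool.Agent.Y525.Width
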