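import Pool.Agent.Y525.Width.Defs

set_option autoImplicit false

open Set

namespace Pool.Agent.Y525.Width

section Core

/-- The discrete crossing lemma. `P` and `Q` are the values of a function along two paths of
lengths `r` and `m` in a graph, `D i j` is the distance of the `i`-th point of the first to the
`j`-th point of the second path; the second path runs from the minimum to the maximum and both
start at the same point. If `D` stays away from `a` whenever the values are nearly equal, then the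
end of the first path has distance less than `a` from the second path. -/
theorem crossing {r m : ℕ} (P Q : ℕ → ℝ) (D : ℕ → ℕ → ℝ) {a θ δ : ℝ} (hδ : 0 < δ)
    (hθ : 0 < θ)
    (hP : ∀ i < r, |P i - P (i + 1)| < θ / 2) (hQ : ∀ j < m, |Q j - Q (j + 1)| < θ / 2)
    (hgood : ∀ i ≤ r, ∀ j ≤ m, |P i - Q j| < θ → δ ≤ |D i j - a|)
    (hD1 : ∀ i < r, ∀ j ≤ m, |D i j - D (i + 1) j| ≤ δ / 4)
    (hD2 : ∀ i ≤ r, ∀ j < m, |D i j - D i (j + 1)| ≤ δ / 4)
    (hmin : ∀ i ≤ r, Q 0 ≤ P i) (hmax : ∀ i ≤ r, P i ≤ Q m) (h00 : P 0 = Q 0)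
    (hQmin : ∀ j, 0 < j → j ≤ m → Q 0 < Q j) (hD00 : D 0 0 < a) : ∃ j ≤ m, D r j < a := by
  classical
  set κ : ℕ → ℕ → ℤ := fun i j => if D i j < a then 1 else 0 with hκ
  set u : ℕ → ℕ → ℤ := fun i j => if Q j ≤ P i then 1 else 0 with hu
  -- `κ` is locally constant near good pairs
  have hκeq : ∀ i j i' j', δ ≤ |D i j - a| → |D i j - D i' j'| ≤ δ / 2 → κ i j = κ i' j' := by
    intro i j i' j' h1 h2
    have h3 : D i j < a ↔ D i' j' < a := by
      rw [abs_le] at h2
      rcases le_or_gt 0 (D i j - a) with h | h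
      · rw [abs_of_nonneg h] at h1
        constructor <;> intro h4 <;> linarith
      · rw [abs_of_neg h] at h1
        constructor <;> intro h4 <;> linarith
    simp only [hκ, h3]
  -- `u` changes only near good pairs
  have hueq1 : ∀ i j, |Q j - Q (j + 1)| < θ / 2 → ¬ |P i - Q j| < θ → u i j = u i (j + 1) := by
    intro i j h1 h2
    have h3 : Q j ≤ P i ↔ Q (j + 1) ≤ P i := by
      rw [abs_lt] at h1
      rw [not_lt] at h2
      rcases le_or_gt 0 (P i - Q j) with h | h
      · rw [abs_of_nonneg h] at h2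
        constructor <;> intro h4 <;> linarith
      · rw [abs_of_neg h] at h2
        constructor <;> intro h4 <;> linarith
    simp only [hu, h3]
  have hueq2 : ∀ i j, |P i - P (i + 1)| < θ / 2 → ¬ |P i - Q j| < θ → u i j = u (i + 1) j := by
    intro i j h1 h2
    have h3 : Q j ≤ P i ↔ Q j ≤ P (i + 1) := by
      rw [abs_lt] at h1
      rw [not_lt] at h2
      rcases le_or_gt 0 (P i - Q j) with h | h
      · rw [abs_of_nonneg h] at h2
        constructor <;> intro h4 <;> linarith
      · rw [abs_of_neg h] at h2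
        constructor <;> intro h4 <;> linarith
    simp only [hu, h3]
  -- the cell identity
  have hcell : ∀ i < r, ∀ j < m, κ i j * (u i j - u i (j + 1)) -
      κ (i + 1) j * (u (i + 1) j - u (i + 1) (j + 1)) =
      κ i j * (u i j - u (i + 1) j) - κ i (j + 1) * (u i (j + 1) - u (i + 1) (j + 1)) := by
    intro i hi j hj
    have d1 := abs_le.1 (hD1 i hi j hj.le)
    have d2 := abs_le.1 (hD1 i hi (j + 1) hj)
    have d3 := abs_le.1 (hD2 i hi.le j hj)
    have d4 := abs_le.1 (hD2 (i + 1) hi j hj)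
    by_cases hg : |P i - Q j| < θ ∨ |P i - Q (j + 1)| < θ ∨ |P (i + 1) - Q j| < θ ∨
        |P (i + 1) - Q (j + 1)| < θ
    · have hall : κ i j = κ i (j + 1) ∧ κ i j = κ (i + 1) j ∧ κ i j = κ (i + 1) (j + 1) := by
        rcases hg with h | h | h | h
        · have hG := hgood i hi.le j hj.le h
          exact ⟨hκeq _ _ _ _ hG (by rw [abs_le]; constructor <;> linarith),
            hκeq _ _ _ _ hG (by rw [abs_le]; constructor <;> linarith),
            hκeq _ _ _ _ hG (by rw [abs_le]; constructor <;> linarith)⟩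
        · have hG := hgood i hi.le (j + 1) hj h
          have e1 := hκeq _ _ i j hG (by rw [abs_le]; constructor <;> linarith)
          have e2 := hκeq _ _ (i + 1) j hG (by rw [abs_le]; constructor <;> linarith)
          have e3 := hκeq _ _ (i + 1) (j + 1) hG (by rw [abs_le]; constructor <;> linarith)
          exact ⟨e1.symm, e1.symm.trans e2, e1.symm.trans e3⟩
        · have hG := hgood (i + 1) hi j hj.le h
          have e1 := hκeq _ _ i j hG (by rw [abs_le]; constructor <;> linarith)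
          have e2 := hκeq _ _ i (j + 1) hG (by rw [abs_le]; constructor <;> linarith)
          have e3 := hκeq _ _ (i + 1) (j + 1) hG (by rw [abs_le]; constructor <;> linarith)
          exact ⟨e1.symm.trans e2, e1.symm, e1.symm.trans e3⟩
        · have hG := hgood (i + 1) hi (j + 1) hj h
          have e1 := hκeq _ _ i j hG (by rw [abs_le]; constructor <;> linarith)
          have e2 := hκeq _ _ i (j + 1) hG (by rw [abs_le]; constructor <;> linarith)
          have e3 := hκeq _ _ (i + 1) j hG (by rw [abs_le]; constructor <;> linarith)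
          exact ⟨e1.symm.trans e2, e1.symm.trans e3, e1.symm⟩
      obtain ⟨e1, e2, e3⟩ := hall
      rw [← e1, ← e2]
      ring
    · push Not at hg
      obtain ⟨g1, g2, g3, g4⟩ := hg
      have e1 := hueq1 i j (hQ j hj) (not_lt.2 g1)
      have e2 := hueq1 (i + 1) j (hQ j hj) (not_lt.2 g3)
      have e3 := hueq2 i j (hP i hi) (not_lt.2 g1)
      have e4 := hueq2 i (j + 1) (hP i hi) (not_lt.2 g2)
      rw [← e1, ← e2, ← e3]
      ring
  -- the crossing number
  set N : ℕ → ℤ := fun i =>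
    ∑ j ∈ Finset.range m, κ i j * (u i j - u i (j + 1)) + κ i m * u i m with hN
  have hu0 : ∀ i ≤ r, u i 0 = 1 := by
    intro i hi
    simp only [hu, if_pos (hmin i hi)]
  have hstep : ∀ i < r, N i = N (i + 1) := by
    intro i hi
    have h1 : ∑ j ∈ Finset.range m, κ i j * (u i j - u i (j + 1)) -
        ∑ j ∈ Finset.range m, κ (i + 1) j * (u (i + 1) j - u (i + 1) (j + 1)) =
        κ i 0 * (u i 0 - u (i + 1) 0) - κ i m * (u i m - u (i + 1) m) := by
      rw [← Finset.sum_sub_distrib,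
        Finset.sum_congr rfl fun j hj => hcell i hi j (Finset.mem_range.1 hj),
        Finset.sum_range_sub']
    have h2 : κ i m * u (i + 1) m = κ (i + 1) m * u (i + 1) m := by
      by_cases h : Q m ≤ P (i + 1)
      · have h3 : P (i + 1) = Q m := le_antisymm (hmax _ hi) h
        have hG := hgood (i + 1) hi m le_rfl (by rw [h3, sub_self, abs_zero]; exact hθ)
        have h4 := hD1 i hi m le_rfl
        rw [hκeq (i + 1) m i m hG (by rw [abs_sub_comm]; linarith)]
      · simp only [hu, if_neg h, mul_zero]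
    simp only [hN]
    rw [hu0 i hi.le, hu0 (i + 1) hi] at h1
    linarith
  have hNr : ∀ i ≤ r, N 0 = N i := by
    intro i
    induction i with
    | zero => intro _; rfl
    | succ i ih => intro hi; rw [ih (by omega), hstep i (by omega)]
  have hN0 : N 0 = 1 := by
    have hu0j : ∀ j, 0 < j → j ≤ m → u 0 j = 0 := by
      intro j h1 h2
      have := hQmin j h1 h2
      simp only [hu, h00]
      rw [if_neg (not_le.2 this)]
    have hκ0 : κ 0 0 = 1 := by simp only [hκ, if_pos hD00]
    rcases Nat.eq_zero_or_pos m with hm | hm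
    · simp only [hN]
      rw [hm, Finset.sum_range_zero, hκ0, hu0 0 (Nat.zero_le _)]
      norm_num
    · simp only [hN]
      rw [hu0j m hm le_rfl, mul_zero, add_zero]
      obtain ⟨m', rfl⟩ : ∃ m', m = m' + 1 := ⟨m - 1, by omega⟩
      rw [Finset.sum_range_succ', Finset.sum_eq_zero, hκ0, hu0 0 (Nat.zero_le _),
        hu0j 1 one_pos (by omega)]
      · norm_num
      · intro j hj
        rw [Finset.mem_range] at hj
        rw [hu0j (j + 1) (by omega) (by omega), hu0j (j + 1 + 1) (by omega) (by omega)]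
        norm_num
  by_contra hcon
  push Not at hcon
  have : N r = 0 := by
    have hκr : ∀ j ≤ m, κ r j = 0 := by
      intro j hj
      simp only [hκ]
      rw [if_neg (not_lt.2 (hcon j hj))]
    simp only [hN]
    rw [hκr m le_rfl, zero_mul, add_zero]
    refine Finset.sum_eq_zero fun j hj => ?_
    rw [hκr j (Finset.mem_range.1 hj).le, zero_mul]
  rw [← hNr r le_rfl, hN0] at this
  exact one_ne_zero this

end Core

section Cover

variable {X : Type*} [MetricSpace X]

/-- a path of nonempty members of the cover `𝒞` -/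
def IsPath (𝒞 : Set (Set X)) (n : ℕ) (q : ℕ → Set X) : Prop :=
  (∀ k ≤ n, q k ∈ 𝒞 ∧ (q k).Nonempty) ∧ ∀ k < n, (q k ∩ q (k + 1)).Nonempty

/-- The nerve of an open cover of a connected space is connected. -/
theorem exists_path [PreconnectedSpace X] {𝒞 : Set (Set X)} (ho : ∀ A ∈ 𝒞, IsOpen A)
    (hc : ⋃₀ 𝒞 = univ) {A B : Set X} (hA : A ∈ 𝒞) (hA' : A.Nonempty) (hB : B ∈ 𝒞)
    (hB' : B.Nonempty) : ∃ (n : ℕ) (q : ℕ → Set X), IsPath 𝒞 n q ∧ q 0 = A ∧ q n = B := by
  classical
  let R : Set (Set X) := {C | ∃ (n : ℕ) (q : ℕ → Set X), IsPath 𝒞 n q ∧ q 0 = A ∧ q n = C}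
  have hR : ∀ C ∈ R, C ∈ 𝒞 := by
    rintro C ⟨n, q, h1, -, h3⟩
    rw [← h3]
    exact (h1.1 n le_rfl).1
  have hstep : ∀ C ∈ R, ∀ C' ∈ 𝒞, (C ∩ C').Nonempty → C' ∈ R := by
    rintro C ⟨n, q, h1, h2, h3⟩ C' hC' hne
    refine ⟨n + 1, fun k => if k ≤ n then q k else C', ⟨?_, ?_⟩, ?_, ?_⟩
    · intro k hk
      by_cases hkn : k ≤ n
      · simp only [if_pos hkn]
        exact h1.1 k hkn
      · simp only [if_neg hkn]
        exact ⟨hC', hne.mono inter_subset_right⟩
    · intro k hk
      by_cases hkn : k < n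
      · simp only [if_pos hkn.le, if_pos (Nat.succ_le_of_lt hkn)]
        exact h1.2 k hkn
      · have : k = n := by omega
        subst this
        simp only [if_pos le_rfl]
        rw [if_neg (by omega), h3]
        exact hne
    · simp [h2]
    · simp
  have hopen1 : IsOpen (⋃₀ R) := isOpen_sUnion fun C hC => ho C (hR C hC)
  have hopen2 : IsOpen (⋃₀ (𝒞 \ R)) := isOpen_sUnion fun C hC => ho C hC.1
  have hcov : univ ⊆ ⋃₀ R ∪ ⋃₀ (𝒞 \ R) := by
    intro x _
    have hx : x ∈ ⋃₀ 𝒞 := by rw [hc]; trivial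
    obtain ⟨C, hC, hxC⟩ := hx
    by_cases hCR : C ∈ R
    · exact Or.inl ⟨C, hCR, hxC⟩
    · exact Or.inr ⟨C, ⟨hC, hCR⟩, hxC⟩
  have hAR : A ∈ R := ⟨0, fun _ => A, ⟨fun k _ => ⟨hA, hA'⟩, fun k hk => absurd hk (by omega)⟩,
    rfl, rfl⟩
  by_contra hcon
  have hBR : B ∉ R := hcon
  have hne := isPreconnected_univ (⋃₀ R) (⋃₀ (𝒞 \ R)) hopen1 hopen2 hcov
    (by obtain ⟨x, hx⟩ := hA'; exact ⟨x, trivial, A, hAR, hx⟩)
    (by obtain ⟨x, hx⟩ := hB'; exact ⟨x, trivial, B, ⟨hB, hBR⟩, hx⟩)
  obtain ⟨x, -, ⟨C, hC, hxC⟩, C', ⟨hC', hC'R⟩, hxC'⟩ := hne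
  exact hC'R (hstep C hC C' hC' ⟨x, hxC, hxC'⟩)

/-- A shortest path between two sets of vertices is a chain and meets these sets only at its
ends. -/
theorem exists_chain [PreconnectedSpace X] {𝒞 : Set (Set X)} (ho : ∀ A ∈ 𝒞, IsOpen A)
    (hc : ⋃₀ 𝒞 = univ) (S T : Set (Set X)) (hS : ∃ A ∈ S, A ∈ 𝒞 ∧ A.Nonempty)
    (hT : ∃ A ∈ T, A ∈ 𝒞 ∧ A.Nonempty) :
    ∃ (m : ℕ) (q : ℕ → Set X), IsPath 𝒞 m q ∧ q 0 ∈ S ∧ q m ∈ T ∧
      (∀ k, 0 < k → k ≤ m → q k ∉ S) ∧ IsChain (fun i : Fin (m + 1) => q i) := by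
  classical
  obtain ⟨A, hAS, hA, hA'⟩ := hS
  obtain ⟨B, hBT, hB, hB'⟩ := hT
  have hex : ∃ m, ∃ q : ℕ → Set X, IsPath 𝒞 m q ∧ q 0 ∈ S ∧ q m ∈ T := by
    obtain ⟨n, q, h1, h2, h3⟩ := exists_path ho hc hA hA' hB hB'
    exact ⟨n, q, h1, by rw [h2]; exact hAS, by rw [h3]; exact hBT⟩
  obtain ⟨q, hq, hqS, hqT⟩ := Nat.find_spec hex
  set m := Nat.find hex with hm
  have hmin : ∀ m' < m, ¬ ∃ q : ℕ → Set X, IsPath 𝒞 m' q ∧ q 0 ∈ S ∧ q m' ∈ T :=
    fun m' h => Nat.find_min hex h
  refine ⟨m, q, hq, hqS, hqT, ?_, ?_⟩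
  · intro k hk0 hkm hkS
    refine hmin (m - k) (by omega) ⟨fun i => q (i + k), ⟨fun i hi => hq.1 _ (by omega),
      fun i hi => ?_⟩, ?_, ?_⟩
    · have := hq.2 (i + k) (by omega)
      rwa [show i + k + 1 = i + 1 + k by omega] at this
    · simpa using hkS
    · have : m - k + k = m := by omega
      simp only [this]
      exact hqT
  · -- no shortcuts
    have hfar : ∀ i j, i + 1 < j → j ≤ m → ¬ (q i ∩ q j).Nonempty := by
      intro i j hij hjm hne
      refine hmin (m - (j - i - 1)) (by omega)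
        ⟨fun k => if k ≤ i then q k else q (k + (j - i - 1)), ⟨?_, ?_⟩, ?_, ?_⟩
      · intro k hk
        by_cases hki : k ≤ i
        · simp only [if_pos hki]; exact hq.1 k (by omega)
        · simp only [if_neg hki]; exact hq.1 _ (by omega)
      · intro k hk
        by_cases hki : k < i
        · simp only [if_pos hki.le, if_pos (Nat.succ_le_of_lt hki)]
          exact hq.2 k (by omega)
        · by_cases hki' : k = i
          · subst hki'
            simp only [if_pos le_rfl]
            rw [if_neg (by omega), show k + 1 + (j - k - 1) = j by omega]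
            exact hne
          · have h1 : ¬ k ≤ i := by omega
            have h2 : ¬ k + 1 ≤ i := by omega
            simp only [if_neg h1, if_neg h2]
            have := hq.2 (k + (j - i - 1)) (by omega)
            rwa [show k + (j - i - 1) + 1 = k + 1 + (j - i - 1) by omega] at this
      · simpa using hqS
      · have h1 : ¬ m - (j - i - 1) ≤ i := by omega
        simp only [if_neg h1]
        rw [show m - (j - i - 1) + (j - i - 1) = m by omega]
        exact hqT
    intro i j
    have hi := i.2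
    have hj := j.2
    constructor
    · intro hne
      by_contra hcon
      rw [not_le, lt_abs] at hcon
      rcases hcon with h | h
      · exact hfar j i (by omega) (by omega) (by rw [inter_comm]; exact hne)
      · exact hfar i j (by omega) (by omega) hne
    · intro h
      rw [abs_le] at h
      have h3 : (i : ℕ) = j ∨ (j : ℕ) = i + 1 ∨ (i : ℕ) = j + 1 := by omega
      rcases h3 with h3 | h3 | h3
      · simp only [h3, inter_self]
        exact (hq.1 j (by omega)).2
      · simp only [h3]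
        exact hq.2 i (by omega)
      · simp only [h3]
        rw [inter_comm]
        exact hq.2 j (by omega)

end Cover

/-- **Main theorem.** -/
theorem exists_dist_eq {X Y : Type*} [MetricSpace X] [CompactSpace X] [ConnectedSpace X]
    [MetricSpace Y] [CompactSpace Y] (hY : Chainable Y) {f : X → Y} (hf : Continuous f) {a : ℝ}
    (ha0 : 0 < a) (ha : a < width X) : ∃ x y : X, dist x y = a ∧ f x = f y := by
  classical
  by_contra hcon
  push Not at hcon
  -- a number `a'` larger than `a` with the property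
  have hne : {a : ℝ | HasWidth X a}.Nonempty := by
    by_contra h
    rw [Set.not_nonempty_iff_eq_empty] at h
    have : width X = 0 := by rw [width, h, Real.sSup_empty]
    linarith
  obtain ⟨a', ha', haa'⟩ := exists_lt_of_lt_csSup hne ha
  -- step 1
  obtain ⟨δ, hδ, h1⟩ : ∃ δ > 0, ∀ x y, dist (f x) (f y) < δ → δ ≤ |dist x y - a| := by
    have hcont : Continuous fun p : X × X => dist (f p.1) (f p.2) + |dist p.1 p.2 - a| := by
      fun_prop
    obtain ⟨p, -, hp⟩ := isCompact_univ.exists_isMinOn (univ_nonempty (α := X × X))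
      hcont.continuousOn
    have hpos : 0 < dist (f p.1) (f p.2) + |dist p.1 p.2 - a| := by
      by_contra hle
      have e1 : 0 ≤ dist (f p.1) (f p.2) := dist_nonneg
      have e2 : 0 ≤ |dist p.1 p.2 - a| := abs_nonneg _
      have e3 : dist (f p.1) (f p.2) = 0 := by linarith
      have e4 : |dist p.1 p.2 - a| = 0 := by linarith
      exact hcon p.1 p.2 (by linarith [abs_eq_zero.1 e4]) (dist_eq_zero.1 e3)
    refine ⟨(dist (f p.1) (f p.2) + |dist p.1 p.2 - a|) / 2, by positivity, fun x y hxy => ?_⟩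
    have h3 := hp (mem_univ (x, y))
    simp only [mem_ofPred_eq] at h3
    linarith
  -- step 2
  obtain ⟨g, hg, -, hgδ⟩ := hY (δ / 2) (by positivity)
  obtain ⟨θ, hθ, h2⟩ : ∃ θ > 0, ∀ u v : Y, |(g u : ℝ) - g v| < θ → dist u v < δ := by
    by_cases hemp : {p : Y × Y | δ ≤ dist p.1 p.2}.Nonempty
    · have hclosed : IsClosed {p : Y × Y | δ ≤ dist p.1 p.2} :=
        isClosed_le continuous_const (by fun_prop)
      have hcont : Continuous fun p : Y × Y => |(g p.1 : ℝ) - g p.2| := by fun_prop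
      obtain ⟨p, hpm, hp⟩ := hclosed.isCompact.exists_isMinOn hemp hcont.continuousOn
      have hpos : 0 < |(g p.1 : ℝ) - g p.2| := by
        rw [abs_pos]
        intro h0
        have h3 : g p.1 = g p.2 := Subtype.ext (sub_eq_zero.1 h0)
        have h4 := Metric.dist_le_diam_of_mem (Metric.isBounded_of_compactSpace (s := g ⁻¹' {g p.2}))
          (show p.1 ∈ g ⁻¹' {g p.2} from h3) (show p.2 ∈ g ⁻¹' {g p.2} from rfl)
        have h5 := hgδ (g p.2)
        have h6 : δ ≤ dist p.1 p.2 := hpm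
        linarith
      refine ⟨_, hpos, fun u v huv => ?_⟩
      by_contra hge
      have := hp (show (u, v) ∈ {p : Y × Y | δ ≤ dist p.1 p.2} from not_lt.1 hge)
      simp only [mem_ofPred_eq] at this
      linarith
    · refine ⟨1, one_pos, fun u v _ => ?_⟩
      by_contra hge
      exact hemp ⟨(u, v), not_lt.1 hge⟩
  set F : X → ℝ := fun x => g (f x) with hF
  have hFc : Continuous F := by fun_prop
  have h3 : ∀ x y, |F x - F y| < θ → δ ≤ |dist x y - a| := fun x y h => h1 x y (h2 _ _ h)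
  -- step 3
  obtain ⟨ε₁, hε₁, h4⟩ := Metric.uniformContinuous_iff.1
    (CompactSpace.uniformContinuous_of_continuous hFc) (θ / 4) (by positivity)
  obtain ⟨𝒞, hfin, hmesh, hcov, hprop⟩ := ha' (min ε₁ (δ / 8)) (by positivity)
  -- centres
  have hpt : ∃ c : Set X → X, ∀ A, A.Nonempty → c A ∈ A := by
    obtain ⟨x₀⟩ : Nonempty X := inferInstance
    refine ⟨fun A => if h : A.Nonempty then h.some else x₀, fun A hA => ?_⟩
    simp only [dif_pos hA]
    exact hA.some_mem
  obtain ⟨c, hc⟩ := hpt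
  have hdist : ∀ A ∈ 𝒞, ∀ x ∈ A, ∀ y ∈ A, dist x y < min ε₁ (δ / 8) := fun A hA x hx y hy =>
    lt_of_le_of_lt (Metric.dist_le_diam_of_mem Metric.isBounded_of_compactSpace hx hy) (hmesh A hA).2
  have hadj : ∀ A ∈ 𝒞, ∀ B ∈ 𝒞, A.Nonempty → B.Nonempty → (A ∩ B).Nonempty →
      |F (c A) - F (c B)| < θ / 2 ∧ dist (c A) (c B) ≤ δ / 4 := by
    rintro A hA B hB hAn hBn ⟨z, hzA, hzB⟩
    have e1 := hdist A hA _ (hc A hAn) z hzA
    have e2 := hdist B hB _ (hc B hBn) z hzB
    have e3 := h4 (lt_of_lt_of_le e1 (min_le_left _ _))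
    have e4 := h4 (lt_of_lt_of_le e2 (min_le_left _ _))
    rw [Real.dist_eq] at e3 e4
    constructor
    · rw [abs_lt] at *
      constructor <;> linarith
    · have e5 := lt_of_lt_of_le e1 (min_le_right _ _)
      have e6 := lt_of_lt_of_le e2 (min_le_right _ _)
      have e7 := dist_triangle (c A) z (c B)
      rw [dist_comm z (c B)] at e7
      linarith
  -- minimal and maximal members
  set 𝒞₀ : Set (Set X) := {A ∈ 𝒞 | A.Nonempty} with h𝒞₀
  have hfin₀ : 𝒞₀.Finite := hfin.subset (sep_subset _ _)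
  have hne₀ : 𝒞₀.Nonempty := by
    obtain ⟨x₀⟩ : Nonempty X := inferInstance
    have : x₀ ∈ ⋃₀ 𝒞 := by rw [hcov]; trivial
    obtain ⟨A, hA, hxA⟩ := this
    exact ⟨A, hA, ⟨x₀, hxA⟩⟩
  obtain ⟨Amin, hAmin, hmin⟩ := exists_min_image 𝒞₀ (fun A => F (c A)) hfin₀ hne₀
  obtain ⟨Amax, hAmax, hmax⟩ := exists_max_image 𝒞₀ (fun A => F (c A)) hfin₀ hne₀
  obtain ⟨m, q, hq, hqS, hqT, hqS', hchain⟩ := exists_chain (fun A hA => (hmesh A hA).1) hcov
    {A | F (c A) = F (c Amin)} {A | F (c A) = F (c Amax)} ⟨Amin, rfl, hAmin⟩ ⟨Amax, rfl, hAmax⟩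
  obtain ⟨A, hA, hAn, hAfar⟩ := hprop m (fun i => q i) hchain fun i => (hq.1 i (by omega)).1
  -- a path from `q 0` to `A`
  obtain ⟨r, p, hp, hp0, hpr⟩ := exists_path (fun A hA => (hmesh A hA).1) hcov
    (hq.1 0 (Nat.zero_le _)).1 (hq.1 0 (Nat.zero_le _)).2 hA hAn
  obtain ⟨j, hj, hjD⟩ := crossing (r := r) (m := m) (fun i => F (c (p i))) (fun j => F (c (q j)))
    (fun i j => dist (c (p i)) (c (q j))) hδ hθ
    (fun i hi => (hadj _ (hp.1 i hi.le).1 _ (hp.1 (i + 1) hi).1 (hp.1 i hi.le).2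
      (hp.1 (i + 1) hi).2 (hp.2 i hi)).1)
    (fun j hj => (hadj _ (hq.1 j hj.le).1 _ (hq.1 (j + 1) hj).1 (hq.1 j hj.le).2
      (hq.1 (j + 1) hj).2 (hq.2 j hj)).1)
    (fun i _ j _ h => h3 _ _ h)
    (fun i hi j hj => by
      have e := (hadj _ (hp.1 i hi.le).1 _ (hp.1 (i + 1) hi).1 (hp.1 i hi.le).2
        (hp.1 (i + 1) hi).2 (hp.2 i hi)).2
      exact (abs_dist_sub_le _ _ _).trans e)
    (fun i hi j hj => by
      have e := (hadj _ (hq.1 j hj.le).1 _ (hq.1 (j + 1) hj).1 (hq.1 j hj.le).2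
        (hq.1 (j + 1) hj).2 (hq.2 j hj)).2
      simp only [dist_comm (c (p i))]
      exact (abs_dist_sub_le _ _ _).trans e)
    (fun i hi => by
      have e1 : F (c (q 0)) = F (c Amin) := hqS
      simp only [e1]
      exact hmin _ (hp.1 i hi))
    (fun i hi => by
      have e1 : F (c (q m)) = F (c Amax) := hqT
      simp only [e1]
      exact hmax _ (hp.1 i hi))
    (by simp only [hp0])
    (fun j h0 hj => by
      have e1 : F (c (q 0)) = F (c Amin) := hqS
      have e2 := hmin _ (hq.1 j hj)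
      have e3 : F (c (q j)) ≠ F (c Amin) := hqS' j h0 hj
      simp only [e1]
      exact lt_of_le_of_ne e2 (Ne.symm e3))
    (by simp only [hp0, dist_self]; exact ha0)
  have hfar := hAfar (c A) (hc A hAn) ⟨j, by omega⟩ (c (q j)) (hc _ (hq.1 j hj).2)
  simp only [hpr] at hjD
  linarith

end Pool.Agent.Y525.Width
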